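import Pool.Agent.Lib.MP_c25fd9_nt.Final

set_option autoImplicit false

namespace Pool.Agent.Results.MP_c25fd9_nt.QLiu

/-- the q-shifted factorial `(a;q)_k` in `ℚ(q)` -/
noncomputable def qPoch (a q : RatFunc ℚ) (k : ℕ) : RatFunc ℚ :=
  ∏ j ∈ Finset.range k, (1 - a * q ^ j)

/-- the rising factorial `(x)_k` -/
def rising (x : ℚ) (k : ℕ) : ℚ := ∏ j ∈ Finset.range k, (x + j)

/-- `a_k(q)` -/
noncomputable def aTerm (k : ℕ) : RatFunc ℚ :=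
  qPoch RatFunc.X (RatFunc.X ^ 2) k ^ 2 * qPoch (RatFunc.X ^ 2) (RatFunc.X ^ 4) k
      * RatFunc.X ^ (2 * k)
    / (qPoch (RatFunc.X ^ 2) (RatFunc.X ^ 2) k ^ 2 * qPoch (RatFunc.X ^ 4) (RatFunc.X ^ 4) k)

/-- `S_{m,n}(q)` -/
noncomputable def sumS (m n : ℕ) : RatFunc ℚ := ∑ k ∈ Finset.range (m * n), aTerm k

/-- `T_m` -/
def sumT (m : ℕ) : ℚ := ∑ k ∈ Finset.range m, rising (1 / 2) k ^ 3 / (k.factorial : ℚ) ^ 3

/-- `C_n(q)` -/
noncomputable def constC (n : ℕ) : RatFunc ℚ :=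
  (1 - RatFunc.X ^ n) / (1 - RatFunc.X) * qPoch (RatFunc.X ^ 3) (RatFunc.X ^ 4) ((n - 1) / 2)
    / qPoch (RatFunc.X ^ 5) (RatFunc.X ^ 4) ((n - 1) / 2)

theorem result (m n : ℕ) (_hm : 1 ≤ m) (hn : 1 < n) (h4 : n % 4 = 1) :
    ∃ A B : Polynomial ℚ, IsCoprime B (Polynomial.cyclotomic n ℚ) ∧
      sumS m n - constC n * RatFunc.C (sumT m)
        = algebraMap (Polynomial ℚ) (RatFunc ℚ) (Polynomial.cyclotomic n ℚ) ^ 2
          * algebraMap (Polynomial ℚ) (RatFunc ℚ) A / algebraMap (Polynomial ℚ) (RatFunc ℚ) B := by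
  obtain ⟨M, rfl⟩ : ∃ M, n = 2 * (2 * M) + 1 := ⟨n / 4, by omega⟩
  have h := (Pool.Agent.Lib.MP_c25fd9_nt.setup_ratfunc hn).main (by omega) m
  apply Pool.Agent.Lib.MP_c25fd9_nt.M2_ratfunc (by omega)
  refine h.of_eq ?_
  unfold sumS constC sumT aTerm qPoch rising
  rw [show (2 * (2 * M) + 1 - 1) / 2 = 2 * M by omega, mul_comm m, map_sum]
  congr 1
  · exact Finset.sum_congr rfl fun k _ => (Pool.Agent.Lib.MP_c25fd9_nt.aa_eq _ k).symm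
  · congr 1
    refine Finset.sum_congr rfl fun k _ => ?_
    rw [Pool.Agent.Lib.MP_c25fd9_nt.tau_eq, eq_ratCast]

end Pool.Agent.Results.MP_c25fd9_nt.QLiu
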